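import Pool.Agent.SPN.St7

/-!
# SPN / Cor7: VC dimension, all nestings of the gates modulo `m` and of the symmetric gates
-/

set_option autoImplicit false

namespace Pool.Agent.SPN

open Finset Pool.Agent.RIG Pool.Agent.SPR

/-- the number of values which `T` gates see -/
private theorem Cor7_values (hSau : St_Sau) {n s N m T D : ℕ} (p : ℕ) (C : Circuit n s)
    (κ : Fin n → Fin N) (h : Fin s → Fin n → ZMod m) (g : Fin T → Fin s) (hm : 1 ≤ m)
    (hg : ∀ i, C.Special p (g i) m) (hD : ¬ ShatteredM p C m h (D + 1)) :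
    (open scoped Classical in
      ((univ : Finset (Fin n)).image fun v => (κ v, fun i : Fin T => h (g i) v)).card) ≤
      N * (T * m + 1) ^ D := by
  classical
  set A := (univ : Finset (Fin n)).image fun v => fun i : Fin T => h (g i) v with hA
  have h1 : A.card ≤ (T * m + 1) ^ D := by
    refine hSau (Fin T → ZMod m) A T m D (fun w => w) hm (fun v _ v' _ hne => hne) ?_
    intro i a
    by_contra hcon
    push Not at hcon
    apply hD
    refine ⟨fun j => g (i j), a, fun j => hg (i j), fun S => ?_⟩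
    obtain ⟨w, hw, hw2⟩ := hcon S
    rw [hA, mem_image] at hw
    obtain ⟨v, -, hv⟩ := hw
    refine ⟨v, fun j => ?_⟩
    rw [← hw2 j, ← hv]
  have h2 : ((univ : Finset (Fin n)).image fun v => (κ v, fun i : Fin T => h (g i) v)) ⊆
      (univ : Finset (Fin N)) ×ˢ A := by
    intro x hx
    rw [mem_image] at hx
    obtain ⟨v, -, rfl⟩ := hx
    rw [mem_product]
    exact ⟨mem_univ _, mem_image_of_mem _ (mem_univ v)⟩
  have h3 := card_le_card h2
  rw [card_product, card_univ, Fintype.card_fin] at h3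
  exact h3.trans (Nat.mul_le_mul_left _ h1)

/-- the products along paths -/
private theorem Cor7_path {n s : ℕ} (p : ℕ) (C : Circuit n s) (m z : ℕ) (q F : Fin s → ℕ)
    (h : C.PathBound p q F) :
    C.PathBound p (fun g => 8 * m * (q g + z + z))
      (fun g => F g * (8 * m * (2 * z + 1) + 1) ^ (C.level g + 1)) := by
  obtain ⟨y, hy⟩ : ∃ y : ℕ, y = 8 * m * (2 * z + 1) + 1 := ⟨_, rfl⟩
  rw [← hy]
  have hy1 : 1 ≤ y := by omega
  have hyz : 8 * m * (z + z) + 1 ≤ y := by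
    have e : 8 * m * (2 * z + 1) + 1 = 8 * m * (z + z) + 1 + 8 * m := by ring
    omega
  have hym : 8 * m ≤ y := by
    have e : 8 * m * (2 * z + 1) + 1 = 8 * m + (8 * m * (2 * z) + 1) := by ring
    omega
  have key : ∀ a : ℕ, 8 * m * (a + z + z) + 1 ≤ (a + 1) * y := by
    intro a
    have e1 : 8 * m * (a + z + z) + 1 = a * (8 * m) + (8 * m * (z + z) + 1) := by ring
    have e2 : (a + 1) * y = a * y + y := by ring
    rw [e1, e2]
    exact Nat.add_le_add (Nat.mul_le_mul_left _ hym) hyz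
  intro g
  obtain ⟨h1, h2, h3⟩ := h g
  refine ⟨Nat.mul_pos h1 (pow_pos hy1 _), fun g' hg' => ?_, fun M hM => ?_⟩
  · have hl := C.level_lt g g' hg'
    exact Nat.mul_le_mul (h2 g' hg') (Nat.pow_le_pow_right hy1 (by omega))
  · obtain ⟨h4, h5⟩ := h3 M hM
    refine ⟨?_, fun g' hg' => ?_⟩
    · refine (key (q g)).trans (Nat.mul_le_mul h4 ?_)
      calc y = y ^ 1 := (pow_one y).symm
        _ ≤ y ^ (C.level g + 1) := Nat.pow_le_pow_right hy1 (by omega)
    · have hl := C.level_lt g g' hg'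
      calc (8 * m * (q g + z + z) + 1) * (F g' * y ^ (C.level g' + 1))
          ≤ ((q g + 1) * y) * (F g' * y ^ (C.level g' + 1)) :=
            Nat.mul_le_mul_right _ (key (q g))
        _ = ((q g + 1) * F g') * y ^ (C.level g' + 2) := by ring
        _ ≤ F g * y ^ (C.level g + 1) :=
            Nat.mul_le_mul (h5 g' hg') (Nat.pow_le_pow_right hy1 (by omega))

/-- the numbers -/
private theorem Cor7_num (K₁ m : ℕ) (Λ : ℝ) (hm : 2 ≤ m) (hΛ : 0.69 < Λ) :
    1 ≤ ((K₁ + 100 : ℕ) * m * Λ) ^ (K₁ + 1) ∧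
    (K₁ * m * Λ) ^ K₁ ≤ ((K₁ + 100 : ℕ) * m * Λ) ^ (K₁ + 1) ∧
    16 ≤ ((K₁ + 100 : ℕ) * m * Λ) ∧ (m : ℝ) ≤ (K₁ + 100 : ℕ) * m * Λ ∧
    8 * m * (2 * (2 * Λ + 2) + 1) + 1 ≤ (K₁ + 100 : ℕ) * m * Λ := by
  have hmR : (2 : ℝ) ≤ m := by exact_mod_cast hm
  have hm0 : (0 : ℝ) ≤ m := by linarith
  have hΛ0 : 0 ≤ Λ := by linarith
  have hmΛ : 0.69 * m ≤ m * Λ := by
    have := mul_le_mul_of_nonneg_left hΛ.le hm0
    linarith
  have hK : (100 : ℝ) ≤ (K₁ + 100 : ℕ) := by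
    push_cast
    have : (0 : ℝ) ≤ K₁ := Nat.cast_nonneg _
    linarith
  have hb1 : 100 * (m * Λ) ≤ (K₁ + 100 : ℕ) * m * Λ := by
    rw [mul_assoc]
    exact mul_le_mul_of_nonneg_right hK (by positivity)
  have hb16 : 16 ≤ ((K₁ + 100 : ℕ) : ℝ) * m * Λ := by linarith
  have hle : (K₁ : ℝ) * m * Λ ≤ (K₁ + 100 : ℕ) * m * Λ := by
    rw [mul_assoc, mul_assoc]
    apply mul_le_mul_of_nonneg_right _ (by positivity)
    push_cast
    linarith
  have e : 8 * (m : ℝ) * (2 * (2 * Λ + 2) + 1) + 1 = 32 * (m * Λ) + 40 * m + 1 := by ring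
  refine ⟨one_le_pow₀ (by linarith), ?_, hb16, by linarith, by rw [e]; linarith⟩
  refine (pow_le_pow_left₀ (by positivity) hle K₁).trans ?_
  exact pow_le_pow_right₀ (by linarith) (by omega)

/-- **COR7.** -/
theorem thm_Cor7 (hDis : St_Dis7) (hSau : St_Sau) : St_Cor7 := by
  classical
  intro p d hp
  obtain ⟨K₁, hK₁⟩ := hDis p d hp
  refine ⟨2 * K₁ + d + 100, ?_⟩
  intro n s m r f N D C q F κ R h hm hd hMaj hSp hPB hn hdec hD
  have hs : 1 ≤ s := C.out.pos
  have hsR : (1 : ℝ) ≤ s := by exact_mod_cast hs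
  have hnR : (1 : ℝ) ≤ n := by exact_mod_cast hn
  have hmR : (2 : ℝ) ≤ m := by exact_mod_cast hm
  have hfR : (0 : ℝ) ≤ f := Nat.cast_nonneg f
  have hrR : (0 : ℝ) ≤ r := Nat.cast_nonneg r
  have hN : 1 ≤ N := (κ ⟨0, hn⟩).pos
  have hNR : (1 : ℝ) ≤ N := by exact_mod_cast hN
  have hl2 : (0.69 : ℝ) < Real.log 2 := by
    have := Real.log_two_gt_d9
    linarith
  obtain ⟨Λ, hΛ⟩ : ∃ Λ : ℝ, Λ = Real.log (s + n) := ⟨_, rfl⟩
  have hΛ2 : 0.69 < Λ := by
    rw [hΛ]
    exact hl2.trans_le (Real.log_le_log (by norm_num) (by linarith))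
  have hlg0 : 0 ≤ Real.logb 2 s := Real.logb_nonneg (by norm_num) hsR
  have hlg : Real.logb 2 s ≤ 2 * Λ := by
    have h1 : Real.log s ≤ Λ := by
      rw [hΛ]
      exact Real.log_le_log (by linarith) (by linarith)
    rw [Real.logb, div_le_iff₀ (by linarith)]
    have h2 := mul_le_mul_of_nonneg_left hl2.le (show 0 ≤ 2 * Λ by linarith)
    linarith
  obtain ⟨Y₁, hY₁⟩ : ∃ Y : ℝ, Y = (K₁ * m * Λ) ^ K₁ := ⟨_, rfl⟩
  obtain ⟨β, hβ⟩ : ∃ β : ℝ, β = (K₁ + 100 : ℕ) * m * Λ := ⟨_, rfl⟩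
  obtain ⟨h1Y, hYY, hβ16, hmβ, hyβ⟩ := Cor7_num K₁ m Λ hm hΛ2
  rw [← hβ] at h1Y hYY hβ16 hmβ hyβ
  rw [← hY₁] at hYY
  have hβ0 : 0 < β := by linarith
  have hβ1 : 1 ≤ β := by linarith
  obtain ⟨y, hy⟩ : ∃ y : ℝ, y = β ^ (K₁ + 1) := ⟨_, rfl⟩
  rw [← hy] at h1Y hYY
  have hy0 : 0 < y := by linarith
  have hY₁0 : 0 ≤ Y₁ := by
    rw [hY₁]
    positivity
  have hβy : β ≤ y := by
    rw [hy]
    exact le_self_pow₀ hβ1 (by omega)
  have hβd : 1 ≤ β ^ d := one_le_pow₀ hβ1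
  obtain ⟨Y, hY⟩ : ∃ Y : ℝ,
    Y = ((2 * K₁ + d + 100 : ℕ) * m * Λ) ^ (2 * K₁ + d + 100) := ⟨_, rfl⟩
  have hYbig : β ^ 2 * (y * y) * β ^ d ≤ Y := by
    have e : β ^ 2 * (y * y) * β ^ d = β ^ (2 * K₁ + 4 + d) := by
      rw [hy]
      ring
    have h1 : β ≤ (2 * K₁ + d + 100 : ℕ) * m * Λ := by
      rw [hβ, mul_assoc, mul_assoc]
      apply mul_le_mul_of_nonneg_right _ (by positivity)
      push_cast
      have h2 : (0 : ℝ) ≤ K₁ := Nat.cast_nonneg _
      have h3 : (0 : ℝ) ≤ d := Nat.cast_nonneg _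
      linarith
    rw [e, hY]
    refine (pow_le_pow_left₀ hβ0.le h1 _).trans ?_
    exact pow_le_pow_right₀ (hβ1.trans h1) (by omega)
  have hyy : y ≤ y * y := le_mul_of_one_le_left hy0.le h1Y
  have hyy1 : 1 ≤ y * y := by linarith
  have hβ2 : 16 * β ≤ β ^ 2 := by
    have := mul_le_mul_of_nonneg_right hβ16 hβ0.le
    rw [sq]
    exact this
  have hY4 : 4 * (y * β ^ d) ≤ Y := by
    refine le_trans ?_ hYbig
    have h1 : 4 * y ≤ β ^ 2 * (y * y) := by
      have h2 : (4 : ℝ) ≤ β ^ 2 := by linarith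
      exact mul_le_mul h2 hyy hy0.le (by positivity)
    have h3 := mul_le_mul_of_nonneg_right h1 (show 0 ≤ β ^ d by positivity)
    linarith
  have hyY : y ≤ Y := by
    have h1 : y * 1 ≤ y * β ^ d := mul_le_mul_of_nonneg_left hβd hy0.le
    linarith
  have hY0 : 0 < Y := lt_of_lt_of_le hy0 hyY
  have hY1 : 1 ≤ Y := h1Y.trans hyY
  have hFo1 : 1 ≤ F C.out := (hPB C.out).1
  obtain ⟨Fo, hFo⟩ : ∃ x : ℝ, x = F C.out := ⟨_, rfl⟩
  have hFoR : 1 ≤ Fo := by
    rw [hFo]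
    exact_mod_cast hFo1
  rw [← hΛ, ← hY, ← hFo]
  obtain ⟨P, hP⟩ : ∃ P : ℝ, P = N * ((r + 1) * Y * Fo) ^ D := ⟨_, rfl⟩
  have hrY : 1 ≤ ((r : ℝ) + 1) * Y := by
    have := mul_le_mul (show (1 : ℝ) ≤ r + 1 by linarith) hY1 (by norm_num)
      (show (0 : ℝ) ≤ r + 1 by linarith)
    linarith
  have hrYF : 1 ≤ ((r : ℝ) + 1) * Y * Fo := by
    have := mul_le_mul hrY hFoR (by norm_num) (by linarith)
    linarith
  have hP1 : 1 ≤ P := by
    rw [hP]
    have a2 : 1 ≤ (((r : ℝ) + 1) * Y * Fo) ^ D := one_le_pow₀ hrYF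
    have a3 := mul_le_mul hNR a2 (by norm_num) (by linarith)
    linarith
  rw [← hP]
  obtain ⟨W, hW⟩ : ∃ W : ℝ, W = (r + 1) * (y * β ^ d) * Fo := ⟨_, rfl⟩
  have hyβd : y ≤ y * β ^ d := le_mul_of_one_le_right hy0.le hβd
  have hWy : y ≤ W := by
    rw [hW]
    have h1 : (1 : ℝ) * (y * β ^ d) ≤ (r + 1) * (y * β ^ d) :=
      mul_le_mul_of_nonneg_right (by linarith) (by positivity)
    have h2 : ((r : ℝ) + 1) * (y * β ^ d) ≤ (r + 1) * (y * β ^ d) * Fo :=
      le_mul_of_one_le_right (by positivity) hFoR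
    linarith
  have hW0 : 0 < W := by linarith
  have hW4 : 4 * W ≤ (r + 1) * Y * Fo := by
    have h1 : ((r : ℝ) + 1) * (4 * (y * β ^ d)) ≤ (r + 1) * Y :=
      mul_le_mul_of_nonneg_left hY4 (by linarith)
    have h2 := mul_le_mul_of_nonneg_right h1 (show 0 ≤ Fo by linarith)
    rw [hW]
    linarith
  -- few variables
  by_cases hsmall : (n : ℝ) < 4 * W * (f + 1)
  · have h1 : 4 * W * ((f : ℝ) + 1) ≤ 4 * W * (f + P) :=
      mul_le_mul_of_nonneg_left (by linarith) (by linarith)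
    have h2 : 4 * W * ((f : ℝ) + P) ≤ (r + 1) * Y * Fo * (f + P) :=
      mul_le_mul_of_nonneg_right hW4 (by linarith)
    linarith
  rw [not_lt] at hsmall
  -- the choice of `z`
  obtain ⟨z, hz⟩ : ∃ z : ℕ, z = ⌈Real.logb 2 s⌉₊ + 1 := ⟨_, rfl⟩
  have hz1 : 1 ≤ z := by omega
  have hzR : (1 : ℝ) ≤ z := by exact_mod_cast hz1
  have hsz : Real.logb 2 s ≤ z := by
    have h1 := Nat.le_ceil (Real.logb 2 s)
    rw [hz]
    push_cast
    linarith
  have hz2 : (z : ℝ) ≤ 2 * Λ + 2 := by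
    have h1 := Nat.ceil_lt_add_one hlg0
    rw [hz]
    push_cast
    linarith
  obtain ⟨y0, hy0'⟩ : ∃ y0 : ℕ, y0 = 8 * m * (2 * z + 1) + 1 := ⟨_, rfl⟩
  have hy0β : (y0 : ℝ) ≤ β := by
    refine le_trans ?_ hyβ
    rw [hy0']
    push_cast
    have h1 : 8 * (m : ℝ) * (2 * z + 1) ≤ 8 * m * (2 * (2 * Λ + 2) + 1) :=
      mul_le_mul_of_nonneg_left (by linarith) (by linarith)
    linarith
  have hzβ : (z : ℝ) ≤ β := by
    have h1 : z ≤ y0 := by
      rw [hy0']
      have h2 : 1 * (2 * z + 1) ≤ 8 * m * (2 * z + 1) := Nat.mul_le_mul_right _ (by omega)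
      omega
    have h2 : (z : ℝ) ≤ y0 := by exact_mod_cast h1
    linarith
  have hPB' := Cor7_path p C m z q F hPB
  rw [← hy0'] at hPB'
  have hGout : (((F C.out * y0 ^ (C.level C.out + 1) : ℕ)) : ℝ) ≤ Fo * β ^ d := by
    push_cast
    rw [← hFo]
    apply mul_le_mul_of_nonneg_left _ (by linarith)
    refine (pow_le_pow_left₀ (Nat.cast_nonneg _) hy0β _).trans ?_
    exact pow_le_pow_right₀ hβ1 hd
  -- the choice of the scale
  obtain ⟨L, hL⟩ : ∃ L : ℕ, L = ⌊(n : ℝ) / (2 * W)⌋₊ := ⟨_, rfl⟩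
  have hx0 : 2 * ((f : ℝ) + 1) ≤ n / (2 * W) := by
    rw [le_div_iff₀ (by linarith)]
    linarith
  have hLle : (L : ℝ) ≤ n / (2 * W) := by
    rw [hL]
    exact Nat.floor_le (by positivity)
  have hLlt : (n : ℝ) / (2 * W) < L + 1 := by
    rw [hL]
    exact Nat.lt_floor_add_one _
  have hLge : (n : ℝ) / (4 * W) ≤ L := by
    have e : (n : ℝ) / (4 * W) = n / (2 * W) / 2 := by
      field_simp
      norm_num
    rw [e]
    linarith
  have hLf : (f : ℝ) + 1 ≤ L := by linarith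
  have hLfN : f + 1 ≤ L := by exact_mod_cast hLf
  have hL1 : 1 ≤ L := by omega
  have hLR : (1 : ℝ) ≤ L := by exact_mod_cast hL1
  have hL2W : (L : ℝ) * (2 * W) ≤ n := by
    rw [le_div_iff₀ (by linarith)] at hLle
    exact hLle
  have hLW4 : (n : ℝ) ≤ L * (4 * W) := by
    rw [div_le_iff₀ (by linarith)] at hLge
    exact hLge
  have hLz : L * z ≤ n := by
    have h1 : (L : ℝ) * z ≤ L * (2 * W) := mul_le_mul_of_nonneg_left (by linarith) (by linarith)
    have h2 : (L : ℝ) * z ≤ n := h1.trans hL2W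
    exact_mod_cast h2
  have hfL : f ≤ L * z := by
    have h1 : L * 1 ≤ L * z := Nat.mul_le_mul_left _ hz1
    omega
  have hdis := hK₁ n s m r f N z L z C q (fun g => F g * y0 ^ (C.level g + 1)) κ R h hm hd hMaj
    hSp hPB' hn hz1 hL1 hLz hfL hsz hdec
  rw [← hΛ, ← hY₁] at hdis
  rcases hdis with h1 | ⟨T, g, hT, hg, h1⟩
  · exfalso
    have h2 : ((r : ℝ) + 1) * Y₁ * ((F C.out * y0 ^ (C.level C.out + 1) : ℕ) : ℝ) ≤ W := by
      have a1 : ((r : ℝ) + 1) * Y₁ ≤ (r + 1) * y := mul_le_mul_of_nonneg_left hYY (by linarith)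
      have a2 := mul_le_mul a1 hGout (Nat.cast_nonneg _) (by positivity)
      refine a2.trans (le_of_eq ?_)
      rw [hW]
      ring
    have h3 : (L : ℝ) * ((r + 1) * Y₁ * ((F C.out * y0 ^ (C.level C.out + 1) : ℕ) : ℝ)) ≤
        L * W := mul_le_mul_of_nonneg_left h2 (by linarith)
    have h4 : (n : ℝ) ≤ L * W := h1.trans h3
    have e : (L : ℝ) * (2 * W) = 2 * (L * W) := by ring
    rw [e] at hL2W
    linarith
  · -- few values
    have hval := Cor7_values hSau p C κ h g (by omega) hg hD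
    have hvalR : (((univ : Finset (Fin n)).image fun v =>
        (κ v, fun i : Fin T => h (g i) v)).card : ℝ) ≤ N * ((T : ℝ) * m + 1) ^ D := by
      refine le_trans (le_of_eq ?_) (le_trans (Nat.cast_le.2 hval) (le_of_eq ?_))
      · congr
      · push_cast
        ring
    have hT4 : (T : ℝ) ≤ y * (4 * W) := by
      refine hT.trans ?_
      have hLz0 : (0 : ℝ) < L * z := by positivity
      rw [div_le_iff₀ hLz0]
      have a1 : Y₁ * n ≤ y * (L * (4 * W)) := mul_le_mul hYY hLW4 (by linarith) hy0.le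
      have a2 : (0 : ℝ) ≤ y * (4 * W) * L := by positivity
      have a3 : y * (4 * W) * L * 1 ≤ y * (4 * W) * L * z := mul_le_mul_of_nonneg_left hzR a2
      have e1 : y * ((L : ℝ) * (4 * W)) = y * (4 * W) * L * 1 := by ring
      have e2 : y * (4 * W) * ((L : ℝ) * z) = y * (4 * W) * L * z := by ring
      rw [e2]
      rw [e1] at a1
      linarith
    have hTm : (T : ℝ) * m + 1 ≤ (r + 1) * Y * Fo := by
      have a1 : (T : ℝ) * m ≤ y * (4 * W) * m := mul_le_mul_of_nonneg_right hT4 (by linarith)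
      have a2 : (1 : ℝ) ≤ y * W * m := by
        have b1 : (1 : ℝ) ≤ y * W := by
          have := mul_le_mul h1Y (h1Y.trans hWy) (by norm_num) hy0.le
          linarith
        have b2 := mul_le_mul b1 (show (1 : ℝ) ≤ m by linarith) (by norm_num) (by positivity)
        linarith
      have a3 : y * W * m = (r + 1) * (m * (y * y) * β ^ d) * Fo := by
        rw [hW]
        ring
      have a4 : 5 * (m * (y * y) * β ^ d) ≤ Y := by
        refine le_trans ?_ hYbig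
        have c1 : 5 * (m : ℝ) ≤ β ^ 2 := by
          have c2 : 5 * (m : ℝ) ≤ 5 * β := by linarith
          linarith
        have c2 := mul_le_mul_of_nonneg_right c1 (show 0 ≤ (y * y) * β ^ d by positivity)
        have e1 : 5 * (m * (y * y) * β ^ d) = 5 * (m : ℝ) * ((y * y) * β ^ d) := by ring
        have e2 : β ^ 2 * (y * y) * β ^ d = β ^ 2 * ((y * y) * β ^ d) := by ring
        rw [e1, e2]
        exact c2
      have a5 : ((r : ℝ) + 1) * (5 * (m * (y * y) * β ^ d)) * Fo ≤ (r + 1) * Y * Fo := by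
        apply mul_le_mul_of_nonneg_right _ (by linarith)
        exact mul_le_mul_of_nonneg_left a4 (by linarith)
      have e1 : y * (4 * W) * m = 4 * (y * W * m) := by ring
      have e2 : ((r : ℝ) + 1) * (5 * (m * (y * y) * β ^ d)) * Fo =
          5 * ((r + 1) * (m * (y * y) * β ^ d) * Fo) := by ring
      rw [e1] at a1
      rw [e2, ← a3] at a5
      linarith
    have h2 : (((univ : Finset (Fin n)).image fun v =>
        (κ v, fun i : Fin T => h (g i) v)).card : ℝ) ≤ P := by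
      refine hvalR.trans ?_
      rw [hP]
      apply mul_le_mul_of_nonneg_left _ (by linarith)
      exact pow_le_pow_left₀ (by positivity) hTm D
    have h4 : (n : ℝ) ≤ (r + 1) * Y₁ * P := by
      refine h1.trans ?_
      apply mul_le_mul_of_nonneg_left _ (by positivity)
      refine le_trans (le_of_eq ?_) h2
      congr
    have h5 : ((r : ℝ) + 1) * Y₁ ≤ (r + 1) * Y * Fo := by
      have b1 : ((r : ℝ) + 1) * Y₁ ≤ (r + 1) * Y :=
        mul_le_mul_of_nonneg_left (hYY.trans hyY) (by linarith)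
      have b2 : ((r : ℝ) + 1) * Y ≤ (r + 1) * Y * Fo := le_mul_of_one_le_right (by linarith) hFoR
      linarith
    have h6 : ((r : ℝ) + 1) * Y₁ * P ≤ (r + 1) * Y * Fo * (f + P) :=
      mul_le_mul h5 (by linarith) (by linarith) (by linarith)
    linarith

end Pool.Agent.SPN
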