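import Pool.Agent.SPN.St7
import Pool.Agent.Helper82.ACC.ZeroSum

/-!
# Local rigidity with symmetric gates, from the theorem on blocks
-/

set_option autoImplicit false

namespace Pool.Agent.SPN

open Finset Pool.Agent.RIG

theorem thm_Loc7 (hBlk : St_BlkP) : St_Loc7 := by
  intro p d hp
  obtain ⟨K, hK⟩ := hBlk p d hp
  refine ⟨K, ?_⟩
  intro n s m r k C f F W R hm hd hF hC hW hdis hg
  classical
  have hm0 : 0 < m := by omega
  choose B hBW hBn hB0 using fun j => Pool.Agent.Helper82.ACC.exists_zeroSum (κ := Fin r) m hm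
    (W j) (fun v i => R j i v) (by rw [Fintype.card_fin]; exact hW j)
  refine hK n s C (fun g => m * f g) F hd hF hC k B hBn
    (fun i j hij => disjoint_of_subset_left (hBW i) (disjoint_of_subset_right (hBW j) (hdis i j hij)))
    (fun g M hgM => by
      rcases hg g M hgM with hg1 | ⟨hv0, hq0⟩
      swap
      · have h2 : ∀ j, (∑ v ∈ B j, C.vw g v) % M = 0 := by
          intro j
          rw [sum_eq_zero fun v _ => hv0 v, Nat.zero_mod]
        have h4 : ∑ h, C.gw g h % M ≤ f g :=
          (sum_le_sum fun h _ => Nat.mod_le (C.gw g h) M).trans hq0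
        rw [sum_eq_zero fun j _ => h2 j, zero_add]
        exact h4.trans (Nat.le_mul_of_pos_left _ hm0)
      obtain ⟨rfl, J, H, hf, hH, hJ⟩ := hg1
      have h2 : ∀ j, (∑ v ∈ B j, C.vw g v) % M ≤ M * if j ∈ J then 1 else 0 := by
        intro j
        split_ifs with h
        · rw [mul_one]
          exact (Nat.mod_lt _ hm0).le
        · obtain ⟨a, ha⟩ := hJ j h
          have h3 : ((∑ v ∈ B j, C.vw g v : ℕ) : ZMod M) = 0 := by
            push_cast
            rw [sum_congr rfl fun v hv => ha v (hBW j hv), sum_comm]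
            refine sum_eq_zero fun i _ => ?_
            rw [← mul_sum, hB0 j i, mul_zero]
          rw [mul_zero, Nat.le_zero]
          exact Nat.mod_eq_zero_of_dvd ((ZMod.natCast_eq_zero_iff _ _).1 h3)
      have h4 : ∀ h, C.gw g h % M ≤ M * if h ∈ H then 1 else 0 := by
        intro h
        split_ifs with h5
        · rw [mul_one]
          exact (Nat.mod_lt _ hm0).le
        · rw [mul_zero, Nat.le_zero]
          exact Nat.mod_eq_zero_of_dvd ((ZMod.natCast_eq_zero_iff _ _).1 (hH h h5))
      calc ∑ j, (∑ v ∈ B j, C.vw g v) % M + ∑ h, C.gw g h % M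
          ≤ ∑ j, (M * if j ∈ J then 1 else 0) + ∑ h, (M * if h ∈ H then 1 else 0) :=
            Nat.add_le_add (sum_le_sum fun j _ => h2 j) (sum_le_sum fun h _ => h4 h)
        _ = M * (J.card + H.card) := by
            rw [← mul_sum, ← mul_sum, ← card_filter, ← card_filter, mul_add, filter_mem_eq_inter,
              filter_mem_eq_inter, univ_inter, univ_inter]
        _ ≤ M * f g := Nat.mul_le_mul_left _ hf)

end Pool.Agent.SPN
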