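import Pool.Agent.SPN.St6

/-!
# SPN / Wgt6: multiplicative weights
-/

set_option autoImplicit false

namespace Pool.Agent.SPN

open Finset

private theorem Wgt6_card {k : ℕ} {T G : Type} (Bad : T → G → Prop) (c' : T) (c : Fin k → T)
    (g : G) : (open scoped Classical in
      (univ.filter fun j => Bad ((Fin.cons c' c : Fin (k + 1) → T) j) g).card) =
    (open scoped Classical in (if Bad c' g then 1 else 0) +
      (univ.filter fun j => Bad (c j) g).card) := by
  classical
  rw [card_filter, Fin.sum_univ_succ, card_filter]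
  simp only [Fin.cons_zero, Fin.cons_succ]

private theorem Wgt6_main (n s B : ℕ) (T : Type) (W : T → Finset (Fin n)) (Bad : T → Fin s → Prop)
    (G₀ : Finset (Fin s)) (δ : ℝ) (hδ : 0 ≤ δ)
    (hstep : ∀ (U : Finset (Fin n)) (w : Fin s → ℝ), n ≤ 2 * U.card → (∀ g, 0 ≤ w g) →
    ∃ c : T, W c ⊆ U ∧ (W c).card = B ∧
      (∑ g ∈ G₀, (open scoped Classical in if Bad c g then w g else 0)) ≤ δ * ∑ g ∈ G₀, w g) :
    ∀ k : ℕ, 2 * B * k ≤ n → ∃ c : Fin k → T, (∀ j, (W (c j)).card = B) ∧
      (∀ i j, i ≠ j → Disjoint (W (c i)) (W (c j))) ∧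
      ∑ g ∈ G₀, (2 : ℝ) ^ (open scoped Classical in
        (univ.filter fun j => Bad (c j) g).card) ≤ G₀.card * (1 + δ) ^ k := by
  classical
  intro k
  induction k with
  | zero =>
    intro _
    refine ⟨Fin.elim0, fun j => j.elim0, fun i => i.elim0, ?_⟩
    simp
  | succ k ih =>
    intro hk
    have hk' : 2 * B * k ≤ n := by
      have : 2 * B * (k + 1) = 2 * B * k + 2 * B := by ring
      omega
    obtain ⟨c, h1, h2, h3⟩ := ih hk'
    set A : Finset (Fin n) := univ.biUnion fun j => W (c j) with hA
    have hAc : A.card ≤ k * B := by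
      have := card_biUnion_le_card_mul (univ : Finset (Fin k)) (fun j => W (c j)) B
        (fun j _ => (h1 j).le)
      simpa using this
    have hU : n ≤ 2 * (Aᶜ).card := by
      rw [card_compl, Fintype.card_fin]
      have e : 2 * B * k = 2 * (k * B) := by ring
      omega
    obtain ⟨c', hc1, hc2, hc3⟩ := hstep Aᶜ
      (fun g => (2 : ℝ) ^ (univ.filter fun j => Bad (c j) g).card) hU (fun g => by positivity)
    have hdis : ∀ j, Disjoint (W c') (W (c j)) := by
      intro j
      rw [disjoint_left]
      intro v hv hv'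
      have a1 := hc1 hv
      rw [mem_compl] at a1
      exact a1 (mem_biUnion.2 ⟨j, mem_univ _, hv'⟩)
    refine ⟨Fin.cons c' c, ?_, ?_, ?_⟩
    · intro j
      refine Fin.cases ?_ (fun i => ?_) j
      · simpa using hc2
      · simpa using h1 i
    · intro i j
      refine Fin.cases ?_ (fun i' => ?_) i <;> refine Fin.cases ?_ (fun j' => ?_) j
      · intro h
        exact absurd rfl h
      · intro _
        simpa using hdis j'
      · intro _
        simpa using (hdis i').symm
      · intro h
        simp only [Fin.cons_succ]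
        exact h2 i' j' fun e => h (by rw [e])
    · have hg : ∀ g ∈ G₀, (2 : ℝ) ^ (univ.filter fun j =>
          Bad ((Fin.cons c' c : Fin (k + 1) → T) j) g).card =
          (if Bad c' g then (2 : ℝ) ^ (univ.filter fun j => Bad (c j) g).card else 0) +
            (2 : ℝ) ^ (univ.filter fun j => Bad (c j) g).card := by
        intro g _
        have e := Wgt6_card Bad c' c g
        rw [e]
        split_ifs with hb
        · rw [pow_add]
          ring
        · rw [zero_add, zero_add]
      rw [sum_congr rfl hg, sum_add_distrib, pow_succ]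
      have h4 : 0 ≤ 1 + δ := by linarith
      have h5 := mul_le_mul_of_nonneg_right h3 h4
      calc _ ≤ δ * (∑ g ∈ G₀, (2 : ℝ) ^ (univ.filter fun j => Bad (c j) g).card) +
            ∑ g ∈ G₀, (2 : ℝ) ^ (univ.filter fun j => Bad (c j) g).card :=
            add_le_add hc3 le_rfl
        _ = (∑ g ∈ G₀, (2 : ℝ) ^ (univ.filter fun j => Bad (c j) g).card) * (1 + δ) := by ring
        _ ≤ _ := h5
        _ = _ := by ring

/-- **WGT6.** -/
theorem thm_Wgt6 : St_Wgt6 := by
  classical
  intro n s B T W Bad G₀ δ hδ hB hstep k hk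
  obtain ⟨c, h1, h2, h3⟩ := Wgt6_main n s B T W Bad G₀ δ hδ hstep k hk
  refine ⟨c, h1, h2, fun g hg => ?_⟩
  set N := (univ.filter fun j => Bad (c j) g).card with hN
  have hs0 : 0 < s := g.pos
  have hsR : (1 : ℝ) ≤ s := by exact_mod_cast hs0
  have hc : (G₀.card : ℝ) ≤ s := by
    have := card_le_univ G₀
    rw [Fintype.card_fin] at this
    exact_mod_cast this
  have h4 : (2 : ℝ) ^ N ≤ s * (1 + δ) ^ k := by
    refine le_trans ?_ (h3.trans (mul_le_mul_of_nonneg_right hc (by positivity)))
    exact single_le_sum (f := fun g => (2 : ℝ) ^ (univ.filter fun j => Bad (c j) g).card)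
      (fun i _ => by positivity) hg
  have h5 : Real.log ((2 : ℝ) ^ N) ≤ Real.log (s * (1 + δ) ^ k) :=
    Real.log_le_log (by positivity) h4
  rw [Real.log_pow, Real.log_mul (by positivity) (by positivity), Real.log_pow] at h5
  have h6 : Real.log (1 + δ) ≤ δ := by
    have := Real.log_le_sub_one_of_pos (show 0 < 1 + δ by linarith)
    linarith
  have hl2 : (0.69 : ℝ) < Real.log 2 := by
    have := Real.log_two_gt_d9
    linarith
  have hl0 : (0 : ℝ) < Real.log 2 := by linarith
  have hkr : (0 : ℝ) ≤ k := Nat.cast_nonneg k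
  have h7 : (N : ℝ) * Real.log 2 ≤ Real.log s + k * δ := by
    have := mul_le_mul_of_nonneg_left h6 hkr
    linarith
  rw [Real.logb]
  have h10 : (N : ℝ) ≤ (Real.log s + k * δ) / Real.log 2 := by
    rw [le_div_iff₀ hl0]
    exact h7
  refine h10.trans ?_
  rw [add_div]
  have h11 : k * δ / Real.log 2 ≤ 2 * (k * δ) := by
    rw [div_le_iff₀ hl0]
    have : 0 ≤ k * δ := mul_nonneg hkr hδ
    nlinarith
  linarith

end Pool.Agent.SPN
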