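import Pool.Agent.SPN.St6

/-!
# SPN / Dis6: few gates modulo `m` distinguish many variables, at the scale `L`
-/

set_option autoImplicit false

namespace Pool.Agent.SPN

open Finset Pool.Agent.RIG Pool.Agent.SPR

private theorem Dis6_path {n s : ℕ} (p : ℕ) (C : Circuit n s) (f f' F : Fin s → ℕ)
    (hle : ∀ g, f' g ≤ f g) (h : C.PathBound p f F) : C.PathBound p f' F := by
  intro g
  obtain ⟨h1, h2, h3⟩ := h g
  refine ⟨h1, h2, fun M hM => ?_⟩
  obtain ⟨h4, h5⟩ := h3 M hM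
  have h6 := hle g
  refine ⟨by omega, fun g' hg' => le_trans ?_ (h5 g' hg')⟩
  exact Nat.mul_le_mul_right _ (by omega)

/-- the numerical bounds -/
private theorem Dis6_num (M : ℕ) (m : ℕ) (Λ X β : ℝ) (hM : 4 ≤ M) (hm : 2 ≤ m) (hΛ : 0.69 < Λ)
    (hX : X = (M * Λ) ^ M) (hβ : β = (M + 8 : ℕ) * m * Λ) :
    1 ≤ X ∧ 16 ≤ β ∧ ((m : ℝ) ^ 2 + 1) ≤ β ^ 2 ∧ X ≤ β ^ M ∧
      m * (2 * Λ + 1) + m + 1 ≤ β := by
  have hMR : (4 : ℝ) ≤ M := by exact_mod_cast hM
  have hmR : (2 : ℝ) ≤ m := by exact_mod_cast hm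
  have hK : (12 : ℝ) ≤ (M + 8 : ℕ) := by
    push_cast
    linarith
  have hm0 : (0 : ℝ) ≤ m := by linarith
  have hΛ0 : 0 ≤ Λ := by linarith
  have hmΛ : 0.69 * m ≤ m * Λ := by
    have := mul_le_mul_of_nonneg_left hΛ.le hm0
    linarith
  have hb1 : 12 * (m * Λ) ≤ β := by
    rw [hβ, mul_assoc]
    exact mul_le_mul_of_nonneg_right hK (by positivity)
  have hML : 1 ≤ M * Λ := by
    have := mul_le_mul_of_nonneg_right hMR hΛ0
    linarith
  have h1 : 8 * (m : ℝ) ≤ β := by linarith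
  refine ⟨?_, by linarith, ?_, ?_, by linarith⟩
  · rw [hX]
    exact one_le_pow₀ hML
  · have h2 := pow_le_pow_left₀ (by positivity) h1 2
    have h3 : (8 * (m : ℝ)) ^ 2 = 64 * (m : ℝ) ^ 2 := by ring
    have h4 : (1 : ℝ) ≤ (m : ℝ) ^ 2 := one_le_pow₀ (by linarith)
    linarith
  · rw [hX]
    apply pow_le_pow_left₀ (by linarith)
    rw [hβ]
    push_cast
    have h2 : (M : ℝ) * Λ ≤ (M + 8) * Λ := mul_le_mul_of_nonneg_right (by linarith) hΛ0
    have h3 : 0 ≤ (M + 8 : ℝ) * Λ := by positivity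
    calc (M : ℝ) * Λ ≤ (M + 8) * Λ := h2
      _ ≤ ((M + 8) * Λ) * m := le_mul_of_one_le_right h3 (by linarith)
      _ = (M + 8) * m * Λ := by ring

/-- **DIS6.** -/
theorem thm_Dis6 (hSpr : St_Spr6) (hPac : St_Pac5) (hSam : St_Sam) : St_Dis6 := by
  classical
  intro p d hp
  obtain ⟨K₁, hK₁⟩ := hSpr p d hp
  obtain ⟨M, hM⟩ : ∃ M : ℕ, M = max K₁ 4 := ⟨_, rfl⟩
  have hM4 : 4 ≤ M := by
    rw [hM]
    exact le_max_right _ _
  have hMK : K₁ ≤ M := by
    rw [hM]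
    exact le_max_left _ _
  refine ⟨M + 8, ?_⟩
  intro n s m r f N z L e₀ C q F κ R h hm hd hMaj hSp hPB hn hz1 hL1 hLz hfe hsz hdec
  have hs : 1 ≤ s := C.out.pos
  have hsR : (1 : ℝ) ≤ s := by exact_mod_cast hs
  have hnR : (1 : ℝ) ≤ n := by exact_mod_cast hn
  have hzR : (1 : ℝ) ≤ z := by exact_mod_cast hz1
  have hLR : (1 : ℝ) ≤ L := by exact_mod_cast hL1
  have hLzR : (L : ℝ) * z ≤ n := by exact_mod_cast hLz
  have hLz0 : (0 : ℝ) < L * z := by positivity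
  have hfeR : (f : ℝ) ≤ L * e₀ := by exact_mod_cast hfe
  have he0 : (0 : ℝ) ≤ e₀ := Nat.cast_nonneg e₀
  have hmR : (2 : ℝ) ≤ m := by exact_mod_cast hm
  have hfR : (0 : ℝ) ≤ f := Nat.cast_nonneg f
  have hF1 : 1 ≤ F C.out := (hPB C.out).1
  have hF1R : (1 : ℝ) ≤ F C.out := by exact_mod_cast hF1
  have hl2 : (0.69 : ℝ) < Real.log 2 := by
    have := Real.log_two_gt_d9
    linarith
  obtain ⟨Λ, hΛ⟩ : ∃ Λ : ℝ, Λ = Real.log (s + n) := ⟨_, rfl⟩
  have hΛ2 : 0.69 < Λ := by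
    rw [hΛ]
    exact hl2.trans_le (Real.log_le_log (by norm_num) (by linarith))
  obtain ⟨X, hX⟩ : ∃ X : ℝ, X = (M * Λ) ^ M := ⟨_, rfl⟩
  obtain ⟨β, hβ⟩ : ∃ β : ℝ, β = (M + 8 : ℕ) * m * Λ := ⟨_, rfl⟩
  obtain ⟨hX1, hβ16, hβB, hβX, hβc⟩ := Dis6_num M m Λ X β hM4 hm hΛ2 hX hβ
  rw [← hΛ, ← hβ]
  have hXK : (K₁ * Λ) ^ K₁ ≤ X := by
    have a0 : (K₁ : ℝ) ≤ M := by exact_mod_cast hMK
    have a1 : (K₁ : ℝ) * Λ ≤ M * Λ := mul_le_mul_of_nonneg_right a0 (by linarith)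
    have a2 : (1 : ℝ) ≤ M * Λ := by
      have h4 : (4 : ℝ) ≤ M := by exact_mod_cast hM4
      have h5 := mul_le_mul_of_nonneg_right h4 (show 0 ≤ Λ by linarith)
      linarith
    rw [hX]
    refine (pow_le_pow_left₀ (mul_nonneg (Nat.cast_nonneg _) (by linarith)) a1 K₁).trans ?_
    exact pow_le_pow_right₀ a2 hMK
  have hX0 : 0 < X := by linarith
  have hβ0 : 0 < β := by linarith
  have hβ1 : 1 ≤ β := by linarith
  obtain ⟨Y, hY⟩ : ∃ Y : ℝ, Y = β ^ (M + 8) := ⟨_, rfl⟩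
  have hY0 : 0 < Y := by
    rw [hY]
    positivity
  rw [← hY]
  obtain ⟨b, hb⟩ : ∃ b : ℝ, b = ((m ^ 2 * (r + 1) + 1 : ℕ) : ℝ) := ⟨_, rfl⟩
  have hrR : (0 : ℝ) ≤ r := Nat.cast_nonneg r
  have hb' : b = (m : ℝ) ^ 2 * (r + 1) + 1 := by
    rw [hb]
    push_cast
    ring
  have hb1 : 1 ≤ b := by
    rw [hb']
    have : 0 ≤ (m : ℝ) ^ 2 * (r + 1) := by positivity
    linarith
  have hb0 : 0 < b := by linarith
  have hbβ : b ≤ (r + 1) * β ^ 2 := by
    rw [hb']
    have h1 := mul_le_mul_of_nonneg_left hβB (show 0 ≤ (r : ℝ) + 1 by linarith)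
    linarith
  have hnz : (1 : ℝ) ≤ n / (L * z) := by
    rw [le_div_iff₀ hLz0, one_mul]
    exact hLzR
  by_cases hbig : (L : ℝ) * ((F C.out : ℝ) * (b * (K₁ * Λ) ^ K₁)) < n
  · right
    obtain ⟨t, ht⟩ : ∃ t : ℕ, t = 8 * (e₀ + z) := ⟨_, rfl⟩
    obtain ⟨δ, hδ⟩ : ∃ δ : ℝ, δ = L * (8 * e₀ + 7 * z) * b / n := ⟨_, rfl⟩
    have hδ0 : 0 < δ := by
      rw [hδ]
      have : 0 < 8 * (e₀ : ℝ) + 7 * z := by linarith
      positivity
    have hPB' : C.PathBound p (fun g => m * (q g + t)) F := by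
      apply Dis6_path p C _ _ F _ hPB
      intro g
      show m * (q g + t) ≤ 8 * m * (q g + e₀ + z)
      have e : 8 * m * (q g + e₀ + z) = m * (8 * q g + t) := by
        rw [ht]
        ring
      rw [e]
      exact Nat.mul_le_mul_left _ (by omega)
    have htle : Real.logb 2 s + δ * n / (L * b) ≤ t := by
      have e : δ * n / (L * b) = 8 * e₀ + 7 * z := by
        rw [hδ]
        field_simp
      rw [e, ht]
      push_cast
      linarith
    obtain ⟨μ, U, hμ0, hμ1, hμS, hU, hspan⟩ := hK₁ n s m (r + 1) t L C q F δ hm hL1 hd hPB' hMaj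
      hSp hδ0.le (by rw [← hb]; exact htle) (by rw [← hb, ← hΛ]; exact hbig)
    rcases hPac n s m r f p N C μ U δ κ R h hn hδ0 hμ0 hμ1 hμS hU hdec hspan with hP | hP
    · exfalso
      rw [← hb] at hP
      have e : (n : ℝ) * δ = L * (8 * e₀ + 7 * z) * b := by
        rw [hδ]
        field_simp
      rw [e] at hP
      have h1 : 0 ≤ 7 * ((L : ℝ) * z * b) := by positivity
      have h2 : 8 * ((f : ℝ) * b) ≤ 8 * ((L * e₀) * b) := by
        have := mul_le_mul_of_nonneg_right hfeR hb0.le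
        linarith
      have e2 : (L : ℝ) * (8 * e₀ + 7 * z) * b = 8 * ((L * e₀) * b) + 7 * (L * z * b) := by ring
      rw [e2] at hP
      have e3 : 8 * b * (f : ℝ) = 8 * (f * b) := by ring
      rw [e3] at hP
      linarith
    obtain ⟨A, hAU, hA1, hA2⟩ := hP
    rw [← hb] at hA2
    have hδb : 0 < δ / (2 * b) := by positivity
    have hδz : 3 * ((L : ℝ) * z) / n ≤ δ / (2 * b) := by
      rw [hδ, div_le_div_iff₀ (by linarith) (by positivity)]
      have e : L * (8 * e₀ + 7 * z) * b / n * (n : ℝ) = L * (8 * e₀ + 7 * z) * b := by field_simp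
      rw [e]
      have h1 : 0 ≤ 8 * ((L : ℝ) * e₀ * b) := by positivity
      have h2 : 0 ≤ (L : ℝ) * z * b := by positivity
      linarith
    set E := {e : Fin n × Fin n // e.1 ∈ A ∧ e.2 ∈ A ∧ e.1 ≠ e.2 ∧ κ e.1 = κ e.2} with hE
    obtain ⟨T, hT⟩ : ∃ T : ℕ, T = ⌈(2 * Λ + 1) / (δ / (2 * b))⌉₊ := ⟨_, rfl⟩
    have hT1 : (2 * Λ + 1) ≤ δ / (2 * b) * T := by
      have h1 : (2 * Λ + 1) / (δ / (2 * b)) ≤ T := by
        rw [hT]
        exact Nat.le_ceil _
      rw [div_le_iff₀ hδb] at h1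
      linarith
    have hTle : (T : ℝ) ≤ (2 * Λ + 1) * (n / (L * z)) + 1 := by
      have h1 : (T : ℝ) ≤ (2 * Λ + 1) / (δ / (2 * b)) + 1 := by
        rw [hT]
        exact (Nat.ceil_lt_add_one (by positivity)).le
      have h2 : (2 * Λ + 1) / (δ / (2 * b)) ≤ (2 * Λ + 1) / (3 * ((L : ℝ) * z) / n) :=
        div_le_div_of_nonneg_left (by linarith) (by positivity) hδz
      have h3 : (2 * Λ + 1) / (3 * ((L : ℝ) * z) / n) = (2 * Λ + 1) * (n / (L * z)) / 3 := by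
        field_simp
      have h4 : 0 ≤ (2 * Λ + 1) * ((n : ℝ) / (L * z)) := by
        apply mul_nonneg <;> linarith
      linarith
    have hcard : (Fintype.card E : ℝ) < Real.exp (δ / (2 * b) * T) := by
      have h1 : Fintype.card E ≤ n * n := by
        have := Fintype.card_subtype_le
          (fun e : Fin n × Fin n => e.1 ∈ A ∧ e.2 ∈ A ∧ e.1 ≠ e.2 ∧ κ e.1 = κ e.2)
        rwa [Fintype.card_prod, Fintype.card_fin] at this
      have h2 : (Fintype.card E : ℝ) ≤ n * n := by exact_mod_cast h1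
      have h3 : Real.exp (2 * Λ) = (s + n) * (s + n) := by
        rw [two_mul, Real.exp_add, hΛ, Real.exp_log (by linarith)]
      have h4 : Real.exp (2 * Λ) < Real.exp (δ / (2 * b) * T) := by
        apply Real.exp_lt_exp.2
        linarith
      have h5 : (n : ℝ) * n ≤ (s + n) * (s + n) :=
        mul_le_mul (by linarith) (by linarith) (by linarith) (by linarith)
      linarith
    obtain ⟨g, hg1, hg2⟩ := hSam (Fin s) E μ
      (fun e g => h g e.1.1 ≠ h g e.1.2) (δ / (2 * b)) T hμ0 hμ1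
      (fun e => by
        refine (hA2 e.1.1 e.2.1 e.1.2 e.2.2.1 e.2.2.2.1 e.2.2.2.2).trans (le_of_eq ?_)
        apply sum_congr rfl
        intro g _
        by_cases hc : h g e.1.1 = h g e.1.2
        · rw [if_pos hc, if_neg (not_not.2 hc)]
        · rw [if_neg hc, if_pos hc]) hcard
    have hYβ : β ≤ Y := by
      rw [hY]
      exact le_self_pow₀ hβ1 (by omega)
    have hTY : (T : ℝ) ≤ Y * n / (L * z) := by
      have h2 : (2 * Λ + 1) * ((n : ℝ) / (L * z)) + 1 ≤ (2 * Λ + 2) * (n / (L * z)) := by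
        linarith
      have h3 : 2 * Λ + 2 ≤ β := by
        have h4 : 2 * (2 * Λ + 1) ≤ m * (2 * Λ + 1) :=
          mul_le_mul_of_nonneg_right hmR (by linarith)
        linarith
      have h5 : (2 * Λ + 2) * ((n : ℝ) / (L * z)) ≤ Y * (n / (L * z)) :=
        mul_le_mul_of_nonneg_right (h3.trans hYβ) (by linarith)
      rw [mul_div_assoc]
      linarith
    have hAim : A.card ≤ ((univ : Finset (Fin n)).image fun v =>
        (κ v, fun i : Fin T => h (g i) v)).card := by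
      have hinj : Set.InjOn (fun v => (κ v, fun i : Fin T => h (g i) v)) (A : Set (Fin n)) := by
        intro v hv v' hv' heq
        by_contra hne
        obtain ⟨e1, e2⟩ := Prod.mk.inj heq
        obtain ⟨i, hi⟩ := hg2 ⟨(v, v'), hv, hv', hne, e1⟩
        exact hi (congrFun e2 i)
      rw [← card_image_of_injOn hinj]
      exact card_le_card (image_subset_image (subset_univ A))
    refine ⟨T, g, hTY, fun i => hμS _ (hg1 i).ne', ?_⟩
    have hnA : (n : ℝ) ≤ 4 * b * A.card := by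
      have h1 : (n : ℝ) ≤ ((4 * (m ^ 2 * (r + 1) + 1) * A.card : ℕ) : ℝ) := by
        exact_mod_cast hA1
      refine h1.trans (le_of_eq ?_)
      rw [Nat.cast_mul, Nat.cast_mul, ← hb, Nat.cast_ofNat]
    have h4b : 4 * b ≤ (r + 1) * Y := by
      have h1 : 4 * b ≤ 4 * ((r + 1) * β ^ 2) := by linarith
      have e4 : ((r : ℝ) + 1) * Y = ((r + 1) * β ^ 2) * β ^ (M + 6) := by
        rw [hY]
        ring
      have h13 : (4 : ℝ) ≤ β ^ (M + 6) := by
        have : β ^ 1 ≤ β ^ (M + 6) := pow_le_pow_right₀ hβ1 (by omega)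
        linarith
      have h14 := mul_le_mul_of_nonneg_left h13 (show 0 ≤ ((r : ℝ) + 1) * β ^ 2 by positivity)
      rw [e4]
      linarith
    have hA5 : (A.card : ℝ) ≤
        (((univ : Finset (Fin n)).image fun v =>
          (κ v, fun i : Fin T => h (g i) v)).card : ℝ) := by
      exact_mod_cast hAim
    refine hnA.trans ((mul_le_mul h4b hA5 (Nat.cast_nonneg _) (by positivity)).trans
      (le_of_eq ?_))
    congr
  · left
    rw [not_lt] at hbig
    have h1 : b * (K₁ * Λ) ^ K₁ ≤ (r + 1) * Y := by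
      have h2 : b * (K₁ * Λ) ^ K₁ ≤ ((r + 1) * β ^ 2) * β ^ M :=
        mul_le_mul hbβ (hXK.trans hβX)
          (pow_nonneg (mul_nonneg (Nat.cast_nonneg _) (by linarith)) _) (by positivity)
      have h3 : ((r + 1) * β ^ 2) * β ^ M ≤ ((r : ℝ) + 1) * Y := by
        have e : ((r : ℝ) + 1) * β ^ 2 * β ^ M = (r + 1) * β ^ (M + 2) := by ring
        rw [e, hY]
        apply mul_le_mul_of_nonneg_left _ (by linarith)
        exact pow_le_pow_right₀ hβ1 (by omega)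
      exact h2.trans h3
    have h5 : (F C.out : ℝ) * (b * (K₁ * Λ) ^ K₁) ≤ F C.out * ((r + 1) * Y) :=
      mul_le_mul_of_nonneg_left h1 (by linarith)
    have h6 : (L : ℝ) * ((F C.out : ℝ) * (b * (K₁ * Λ) ^ K₁)) ≤
        L * (F C.out * ((r + 1) * Y)) := mul_le_mul_of_nonneg_left h5 (by linarith)
    have e : (L : ℝ) * ((r + 1) * Y * F C.out) = L * (F C.out * ((r + 1) * Y)) := by ring
    rw [e]
    linarith

end Pool.Agent.SPN
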