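import Pool.Agent.SPN.St6
import Pool.Agent.SPR.Sgn2

/-!
# SPN / Fin6: one constant for both parts
-/

set_option autoImplicit false

namespace Pool.Agent.SPN

open Finset Pool.Agent.RIG Pool.Agent.SPR

private theorem Fin6_log {n s : ℕ} (hs : 1 ≤ s) (hn : 1 ≤ n) : 0.69 < Real.log (s + n) := by
  have h1 : (1 : ℝ) ≤ s := by exact_mod_cast hs
  have h2 : (1 : ℝ) ≤ n := by exact_mod_cast hn
  have h3 := Real.log_two_gt_d9
  have h4 : Real.log 2 ≤ Real.log (s + n) := Real.log_le_log (by norm_num) (by linarith)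
  linarith

private theorem Fin6_mono {K K' : ℕ} {c : ℝ} (h : K ≤ K') (h2 : 2 ≤ K') (hc : 0.69 < c) :
    (K * c) ^ K ≤ (K' * c) ^ K' := by
  have a0 : (K : ℝ) ≤ K' := by exact_mod_cast h
  have a1 : (2 : ℝ) ≤ K' := by exact_mod_cast h2
  have a2 : (K : ℝ) * c ≤ K' * c := mul_le_mul_of_nonneg_right a0 (by linarith)
  have a3 : (1 : ℝ) ≤ K' * c := by
    have := mul_le_mul_of_nonneg_right a1 (show 0 ≤ c by linarith)
    linarith
  refine (pow_le_pow_left₀ (mul_nonneg (Nat.cast_nonneg _) (by linarith)) a2 K).trans ?_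
  exact pow_le_pow_right₀ a3 h

private theorem Fin6_shat {n s : ℕ} (p m D : ℕ) (C : Circuit n s) (h : Fin s → Fin n → ZMod m)
    (x : Fin n → Fin D → ℝ) (y : Fin s → Fin D → ℝ) (hm : 2 ≤ m)
    (hxy : ∀ g v, (∃ M, C.Special p g M) → h g v = if 0 ≤ ∑ j, y g j * x v j then 1 else 0) :
    ¬ Shattered p C m h (D + 1) := by
  intro hS
  have hS' : Shat p C m h (D + 1) := hS
  have := sgn2_le p m (D + 1) D C h x y hm hxy hS'
  omega

/-- both parts with one constant -/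
theorem fin6_all (hDis : St_Dis6) (hCor : St_Cor6) (p d : ℕ) (hp : p.Prime) : ∃ K : ℕ,
    ∀ (n s m r f N : ℕ) (C : Circuit n s) (κ : Fin n → Fin N) (R : Fin r → Fin n → ZMod m)
      (h : Fin s → Fin n → ZMod m) (q : Fin s → ℕ), 2 ≤ m → 1 ≤ n → C.level C.out + 1 ≤ d →
      C.Majority → Decomp p C m f κ R h →
      (∀ g M, C.Special p g M → M = m ∧
        (univ.filter fun h' => (C.gw g h' : ZMod m) ≠ 0).card ≤ q g) →
      (∀ (F : Fin s → ℕ) (z L e : ℕ), C.PathBound p (fun g => 8 * m * (q g + e + z)) F →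
        1 ≤ z → 1 ≤ L → L * z ≤ n → f ≤ L * e → Real.logb 2 s ≤ z →
        (n : ℝ) ≤ L * ((r + 1) * (K * m * Real.log (s + n)) ^ K * F C.out) ∨
        ∃ (T : ℕ) (g : Fin T → Fin s), (T : ℝ) ≤ (K * m * Real.log (s + n)) ^ K * n / (L * z) ∧
          (∀ i, ∃ M, C.Special p (g i) M) ∧
          (n : ℝ) ≤ (r + 1) * (K * m * Real.log (s + n)) ^ K *
            (open scoped Classical in
              ((univ : Finset (Fin n)).image fun v => (κ v, fun i : Fin T => h (g i) v)).card)) ∧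
      ∀ (F : Fin s → ℕ) (D : ℕ), C.PathBound p q F →
        (¬ Shattered p C m h (D + 1) ∨ ∃ (x : Fin n → Fin D → ℝ) (y : Fin s → Fin D → ℝ),
          ∀ g v, (∃ M, C.Special p g M) → h g v = if 0 ≤ ∑ j, y g j * x v j then 1 else 0) →
        (n : ℝ) ≤ (r + 1) * (K * m * Real.log (s + n)) ^ K * F C.out *
          (f + N * ((r + 1) * (K * m * Real.log (s + n)) ^ K * F C.out) ^ D) := by
  obtain ⟨K₁, h₁⟩ := hDis p d hp
  obtain ⟨K₂, h₂⟩ := hCor p d hp
  refine ⟨K₁ + K₂ + 2, ?_⟩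
  intro n s m r f N C κ R h q hm hn hd hMaj hdec hSp
  have hΛ := Fin6_log C.out.pos hn
  have hmR : (2 : ℝ) ≤ m := by exact_mod_cast hm
  have hmΛ : 0.69 < m * Real.log (s + n) := by
    have := mul_le_mul_of_nonneg_right hmR (show 0 ≤ Real.log (s + n) by linarith)
    linarith
  have h51 := Fin6_mono (show K₁ ≤ K₁ + K₂ + 2 by omega) (by omega) hmΛ
  have h52 := Fin6_mono (show K₂ ≤ K₁ + K₂ + 2 by omega) (by omega) hmΛ
  simp only [← mul_assoc] at h51 h52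
  have h61 : 0 ≤ ((K₁ : ℝ) * m * Real.log (s + n)) ^ K₁ := by
    apply pow_nonneg
    rw [mul_assoc]
    exact mul_nonneg (Nat.cast_nonneg _) (by linarith)
  have h62 : 0 ≤ ((K₂ : ℝ) * m * Real.log (s + n)) ^ K₂ := by
    apply pow_nonneg
    rw [mul_assoc]
    exact mul_nonneg (Nat.cast_nonneg _) (by linarith)
  have hr : (0 : ℝ) ≤ (r : ℝ) + 1 := by positivity
  obtain ⟨Y₁, hY₁⟩ : ∃ Y : ℝ, Y = ((K₁ : ℝ) * m * Real.log (s + n)) ^ K₁ := ⟨_, rfl⟩
  obtain ⟨Y₂, hY₂⟩ : ∃ Y : ℝ, Y = ((K₂ : ℝ) * m * Real.log (s + n)) ^ K₂ := ⟨_, rfl⟩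
  obtain ⟨Y, hY⟩ : ∃ Y : ℝ,
    Y = ((K₁ + K₂ + 2 : ℕ) * m * Real.log (s + n)) ^ (K₁ + K₂ + 2) := ⟨_, rfl⟩
  have g₁ := h₁ n s m r f N
  have g₂ := h₂ n s m r f N
  rw [← hY₁, ← hY] at h51
  rw [← hY₂, ← hY] at h52
  rw [← hY₁] at h61
  rw [← hY₂] at h62
  simp only [← hY₁] at g₁
  simp only [← hY₂] at g₂
  simp only [← hY]
  refine ⟨fun F z L e hPB hz1 hL1 hLz hfe hsz => ?_, fun F D hPB hor => ?_⟩
  · rcases g₁ z L e C q F κ R h hm hd hMaj hSp hPB hn hz1 hL1 hLz hfe hsz hdec with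
      h7 | ⟨T, g, h7, h8, h9⟩
    · left
      refine h7.trans (mul_le_mul_of_nonneg_left ?_ (Nat.cast_nonneg _))
      refine mul_le_mul_of_nonneg_right ?_ (Nat.cast_nonneg _)
      exact mul_le_mul_of_nonneg_left h51 hr
    · right
      refine ⟨T, g, h7.trans ?_, h8, h9.trans ?_⟩
      · rw [mul_div_assoc, mul_div_assoc]
        exact mul_le_mul_of_nonneg_right h51 (by positivity)
      · refine mul_le_mul_of_nonneg_right ?_ (Nat.cast_nonneg _)
        exact mul_le_mul_of_nonneg_left h51 hr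
  · have hno : ¬ Shattered p C m h (D + 1) := by
      rcases hor with h' | ⟨x, y, hxy⟩
      · exact h'
      · exact Fin6_shat p m D C h x y hm hxy
    refine (g₂ D C q F κ R h hm hd hMaj hSp hPB hn hdec hno).trans ?_
    have h10 : ((r : ℝ) + 1) * Y₂ * F C.out ≤ (r + 1) * Y * F C.out :=
      mul_le_mul_of_nonneg_right (mul_le_mul_of_nonneg_left h52 hr) (Nat.cast_nonneg _)
    have h11 : (0 : ℝ) ≤ (r + 1) * Y₂ * F C.out :=
      mul_nonneg (mul_nonneg hr h62) (Nat.cast_nonneg _)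
    apply mul_le_mul h10 _ _ (h11.trans h10)
    · have h8 := pow_le_pow_left₀ h11 h10 D
      have h9 := mul_le_mul_of_nonneg_left h8 (Nat.cast_nonneg (α := ℝ) N)
      linarith
    · have h9 : 0 ≤ (N : ℝ) * ((r + 1) * Y₂ * F C.out) ^ D :=
        mul_nonneg (Nat.cast_nonneg _) (pow_nonneg h11 _)
      have h12 : (0 : ℝ) ≤ f := Nat.cast_nonneg _
      linarith

end Pool.Agent.SPN
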