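import Pool.Agent.SPR.St5

/-!
# SPN (MP_3586ff_lc): statements of the modules with a scale parameter `L`

They are the statements of `SPR` for `n / (2 B L)` instead of `n / (2 B)` blocks.
-/

set_option autoImplicit false

namespace Pool.Agent.SPN

open Finset Pool.Agent.RIG Pool.Agent.SPR

/-- WGT6.  Multiplicative weights, with the bound for the number of blocks chosen. -/
def St_Wgt6 : Prop := ∀ (n s B : ℕ) (T : Type) (W : T → Finset (Fin n)) (Bad : T → Fin s → Prop)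
  (G₀ : Finset (Fin s)) (δ : ℝ), 0 ≤ δ → 1 ≤ B →
  (∀ (U : Finset (Fin n)) (w : Fin s → ℝ), n ≤ 2 * U.card → (∀ g, 0 ≤ w g) →
    ∃ c : T, W c ⊆ U ∧ (W c).card = B ∧
      (∑ g ∈ G₀, (open scoped Classical in if Bad c g then w g else 0)) ≤ δ * ∑ g ∈ G₀, w g) →
  ∀ k : ℕ, 2 * B * k ≤ n → ∃ c : Fin k → T, (∀ j, (W (c j)).card = B) ∧
    (∀ i j, i ≠ j → Disjoint (W (c i)) (W (c j))) ∧
    ∀ g ∈ G₀, ((open scoped Classical in univ.filter fun j => Bad (c j) g).card : ℝ) ≤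
      Real.logb 2 s + 2 * (k * δ)

/-- SPR6.  Spread at the scale `L`. -/
def St_Spr6 : Prop :=
  ∀ p d : ℕ, p.Prime → ∃ K : ℕ, ∀ (n s m r t L : ℕ) (C : Circuit n s) (q F : Fin s → ℕ) (δ : ℝ),
    2 ≤ m → 1 ≤ L → C.level C.out + 1 ≤ d → C.PathBound p (fun g => m * (q g + t)) F →
    C.Majority →
    (∀ g M, C.Special p g M → M = m ∧ (univ.filter fun h => (C.gw g h : ZMod m) ≠ 0).card ≤ q g) →
    0 ≤ δ → Real.logb 2 s + δ * n / (L * (m ^ 2 * r + 1 : ℕ)) ≤ t →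
    L * (F C.out * ((m ^ 2 * r + 1 : ℕ) * (K * Real.log (s + n)) ^ K)) < n →
    ∃ (μ : Fin s → ℝ) (U : Finset (Fin n)), (∀ g, 0 ≤ μ g) ∧ ∑ g, μ g = 1 ∧
      (∀ g, μ g ≠ 0 → ∃ M, C.Special p g M) ∧ n ≤ 2 * U.card ∧
      ∀ (W : Finset (Fin n)) (R : Fin r → Fin n → ZMod m), W ⊆ U → W.card = m ^ 2 * r + 1 →
        δ < ∑ g, (open scoped Classical in if InSpan C m W R g then 0 else μ g)

/-- DIS6.  All circuits, products along paths, at the scale `L`. -/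
def St_Dis6 : Prop :=
  ∀ p d : ℕ, p.Prime → ∃ K : ℕ, ∀ (n s m r f N z L e : ℕ) (C : Circuit n s) (q F : Fin s → ℕ)
    (κ : Fin n → Fin N) (R : Fin r → Fin n → ZMod m) (h : Fin s → Fin n → ZMod m), 2 ≤ m →
    C.level C.out + 1 ≤ d → C.Majority →
    (∀ g M, C.Special p g M → M = m ∧
      (univ.filter fun h' => (C.gw g h' : ZMod m) ≠ 0).card ≤ q g) →
    C.PathBound p (fun g => 8 * m * (q g + e + z)) F → 1 ≤ n → 1 ≤ z → 1 ≤ L → L * z ≤ n →
    f ≤ L * e → Real.logb 2 s ≤ z → Decomp p C m f κ R h →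
    (n : ℝ) ≤ L * ((r + 1) * (K * m * Real.log (s + n)) ^ K * F C.out) ∨
    ∃ (T : ℕ) (g : Fin T → Fin s), (T : ℝ) ≤ (K * m * Real.log (s + n)) ^ K * n / (L * z) ∧
      (∀ i, ∃ M, C.Special p (g i) M) ∧
      (n : ℝ) ≤ (r + 1) * (K * m * Real.log (s + n)) ^ K *
        (open scoped Classical in
          ((univ : Finset (Fin n)).image fun v => (κ v, fun i : Fin T => h (g i) v)).card)

/-- COR6.  All nestings: VC dimension. `F C.out` bounds the product of the numbers `q g + 1` over the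
gates modulo `m` on a path. -/
def St_Cor6 : Prop :=
  ∀ p d : ℕ, p.Prime → ∃ K : ℕ, ∀ (n s m r f N D : ℕ) (C : Circuit n s) (q F : Fin s → ℕ)
    (κ : Fin n → Fin N) (R : Fin r → Fin n → ZMod m) (h : Fin s → Fin n → ZMod m), 2 ≤ m →
    C.level C.out + 1 ≤ d → C.Majority →
    (∀ g M, C.Special p g M → M = m ∧
      (univ.filter fun h' => (C.gw g h' : ZMod m) ≠ 0).card ≤ q g) →
    C.PathBound p q F → 1 ≤ n →
    Decomp p C m f κ R h → ¬ Shattered p C m h (D + 1) →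
    (n : ℝ) ≤ (r + 1) * (K * m * Real.log (s + n)) ^ K * F C.out *
      (f + N * ((r + 1) * (K * m * Real.log (s + n)) ^ K * F C.out) ^ D)

end Pool.Agent.SPN
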