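import Pool.Agent.SPN.St6

/-!
# SPN (MP_3586ff_lc): statements of the modules with arbitrary symmetric gates

Besides the gates modulo `m` there may be counting gates of other moduli (modulus `0`: arbitrary
symmetric gates) which read no variables and have at most `q g` wires.
-/

set_option autoImplicit false

namespace Pool.Agent.SPN

open Finset Pool.Agent.RIG Pool.Agent.SPR

/-- The counting gates of `C` with a modulus different from `p`: a gate modulo `m` reads at most
`q g` gates (a gate which it reads a number of times divisible by `m` is not counted); every other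
one reads no variables and has at most `q g` wires. -/
def Reads {n s : ℕ} (p : ℕ) (C : Circuit n s) (m : ℕ) (q : Fin s → ℕ) : Prop :=
  ∀ g M, C.Special p g M →
    (M = m ∧ (univ.filter fun h => (C.gw g h : ZMod m) ≠ 0).card ≤ q g) ∨
    ((∀ v, C.vw g v = 0) ∧ ∑ h, C.gw g h ≤ q g)

/-- The coefficient vector of every gate modulo `m` is, modulo `m`,
the sum of a vector which is on every class `κ v = j` a combination of the `r` vectors `R i` (with
coefficients that depend on the class), of a vector with at most `f` entries that are not zero, and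
of the vector `h g`. -/
def DecompM {n s N : ℕ} (p : ℕ) (C : Circuit n s) (m f : ℕ) {r : ℕ} (κ : Fin n → Fin N)
    (R : Fin r → Fin n → ZMod m) (h : Fin s → Fin n → ZMod m) : Prop :=
  ∀ g, C.Special p g m → ∃ a : Fin N → Fin r → ZMod m,
    (univ.filter fun v => (C.vw g v : ZMod m) ≠ (∑ i, a (κ v) i * R i v) + h g v).card ≤ f

/-- The variables shatter `D` gates modulo `m` through the vectors
`h g`: for suitable residues `a i` and every set `S` of these gates there is a variable `v` such that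
`h (g i) v = a i` exactly for the `i` in `S`. -/
def ShatteredM {n s : ℕ} (p : ℕ) (C : Circuit n s) (m : ℕ) (h : Fin s → Fin n → ZMod m) (D : ℕ) :
    Prop :=
  ∃ (g : Fin D → Fin s) (a : Fin D → ZMod m), (∀ i, C.Special p (g i) m) ∧
    ∀ S : Finset (Fin D), ∃ v : Fin n, ∀ i, h (g i) v = a i ↔ i ∈ S

/-- LOC7: local rigidity. -/
def St_Loc7 : Prop :=
  ∀ p d : ℕ, p.Prime → ∃ K : ℕ, ∀ (n s m r k : ℕ) (C : Circuit n s) (f F : Fin s → ℕ)
    (W : Fin k → Finset (Fin n)) (R : Fin k → Fin r → Fin n → ZMod m), 2 ≤ m →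
    C.level C.out + 1 ≤ d → C.PathBound p (fun g => m * f g) F → C.Majority →
    (∀ j, m ^ 2 * r < (W j).card) → (∀ i j, i ≠ j → Disjoint (W i) (W j)) →
    (∀ g M, C.Special p g M → (M = m ∧ ∃ (J : Finset (Fin k)) (H : Finset (Fin s)),
      J.card + H.card ≤ f g ∧ (∀ h, h ∉ H → (C.gw g h : ZMod m) = 0) ∧
      ∀ j, j ∉ J → ∃ a : Fin r → ZMod m, ∀ v ∈ W j, (C.vw g v : ZMod m) = ∑ i, a i * R j i v) ∨
      ((∀ v, C.vw g v = 0) ∧ ∑ h, C.gw g h ≤ f g)) →
    (k : ℝ) ≤ F C.out * (K * Real.log (s + n)) ^ K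

/-- SPR7.  Spread at the scale `L`. -/
def St_Spr7 : Prop :=
  ∀ p d : ℕ, p.Prime → ∃ K : ℕ, ∀ (n s m r t L : ℕ) (C : Circuit n s) (q F : Fin s → ℕ) (δ : ℝ),
    2 ≤ m → 1 ≤ L → C.level C.out + 1 ≤ d → C.PathBound p (fun g => m * (q g + t)) F →
    C.Majority → Reads p C m q →
    0 ≤ δ → Real.logb 2 s + δ * n / (L * (m ^ 2 * r + 1 : ℕ)) ≤ t →
    L * (F C.out * ((m ^ 2 * r + 1 : ℕ) * (K * Real.log (s + n)) ^ K)) < n →
    ∃ (μ : Fin s → ℝ) (U : Finset (Fin n)), (∀ g, 0 ≤ μ g) ∧ ∑ g, μ g = 1 ∧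
      (∀ g, μ g ≠ 0 → C.Special p g m) ∧ n ≤ 2 * U.card ∧
      ∀ (W : Finset (Fin n)) (R : Fin r → Fin n → ZMod m), W ⊆ U → W.card = m ^ 2 * r + 1 →
        δ < ∑ g, (open scoped Classical in if InSpan C m W R g then 0 else μ g)

/-- DIS7.  All circuits, products along paths, at the scale `L`. -/
def St_Dis7 : Prop :=
  ∀ p d : ℕ, p.Prime → ∃ K : ℕ, ∀ (n s m r f N z L e : ℕ) (C : Circuit n s) (q F : Fin s → ℕ)
    (κ : Fin n → Fin N) (R : Fin r → Fin n → ZMod m) (h : Fin s → Fin n → ZMod m), 2 ≤ m →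
    C.level C.out + 1 ≤ d → C.Majority → Reads p C m q →
    C.PathBound p (fun g => 8 * m * (q g + e + z)) F → 1 ≤ n → 1 ≤ z → 1 ≤ L → L * z ≤ n →
    f ≤ L * e → Real.logb 2 s ≤ z → DecompM p C m f κ R h →
    (n : ℝ) ≤ L * ((r + 1) * (K * m * Real.log (s + n)) ^ K * F C.out) ∨
    ∃ (T : ℕ) (g : Fin T → Fin s), (T : ℝ) ≤ (K * m * Real.log (s + n)) ^ K * n / (L * z) ∧
      (∀ i, C.Special p (g i) m) ∧
      (n : ℝ) ≤ (r + 1) * (K * m * Real.log (s + n)) ^ K *
        (open scoped Classical in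
          ((univ : Finset (Fin n)).image fun v => (κ v, fun i : Fin T => h (g i) v)).card)

/-- COR7.  All nestings: VC dimension. `F C.out` bounds the product of the numbers `q g + 1` over the
counting gates with a modulus different from `p` on a path. -/
def St_Cor7 : Prop :=
  ∀ p d : ℕ, p.Prime → ∃ K : ℕ, ∀ (n s m r f N D : ℕ) (C : Circuit n s) (q F : Fin s → ℕ)
    (κ : Fin n → Fin N) (R : Fin r → Fin n → ZMod m) (h : Fin s → Fin n → ZMod m), 2 ≤ m →
    C.level C.out + 1 ≤ d → C.Majority → Reads p C m q →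
    C.PathBound p q F → 1 ≤ n →
    DecompM p C m f κ R h → ¬ ShatteredM p C m h (D + 1) →
    (n : ℝ) ≤ (r + 1) * (K * m * Real.log (s + n)) ^ K * F C.out *
      (f + N * ((r + 1) * (K * m * Real.log (s + n)) ^ K * F C.out) ^ D)

end Pool.Agent.SPN
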